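import Pool.Agent.RG.Final

/-!
# The exponent of the largest gap between rough numbers in almost all windows

Q1 asks whether the largest gap between primes up to `x` is `(log x)^(2+o(1))`.  The primes of
`(z, z^2]` are the integers of `[0, z^2]` (larger than `1`) without prime factor `≤ z`.  The theorem
determines the exponent of the largest gap between integers without prime factor
`≤ z = exp((log X)^θ)` in the window `[n, n + exp(c (log X)^γ)]` for almost all `n ≤ X`: it is `θ + γ`
whenever `0 < γ ≤ θ` and `θ + γ < 1`.  For `γ = θ` and `c = 2` the window is `[n, n + z^2]`, and the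
largest gap is `(log z)^(2+o(1))` for almost all `n ≤ X = exp((log z)^(1/θ))`.

The proof is in `Pool/Agent/RG`: the random model and the induction over the primes (`UUp`, `ULow`),
Brun's pure sieve for the correlations (`Kpt`, `Trans`), the linear sieve with sifting limit two
(`SievL`), the first moment (`Upper`) and the weighted second moment (`LowA`, `Lower`).
-/

set_option autoImplicit false

namespace Pool.Agent.Results.MP_7b323f_nt.RoughGapExponent

open Finset Real Filter Topology

/-- No prime `p ≤ z` divides `m`. -/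
def Rough (z : ℝ) (m : ℕ) : Prop := ∀ p : ℕ, p.Prime → (p : ℝ) ≤ z → ¬ p ∣ m

/-- `r < r'` are consecutive `z`-rough integers. -/
def Consecutive (z : ℝ) (r r' : ℕ) : Prop :=
  Rough z r ∧ Rough z r' ∧ r < r' ∧ ∀ m, r < m → m < r' → ¬ Rough z m

/-- The largest gap between consecutive `z`-rough integers of the window `[n, n + L]` exists and is
at least `g` and at most `G`. -/
def LargestGapIn (z L g G : ℝ) (n : ℕ) : Prop :=
  (∀ r r' : ℕ, (n : ℝ) ≤ r → (r' : ℝ) ≤ n + L → Consecutive z r r' → (r' : ℝ) - r ≤ G) ∧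
  ∃ r r' : ℕ, (n : ℝ) ≤ r ∧ (r' : ℝ) ≤ n + L ∧ Consecutive z r r' ∧ g ≤ (r' : ℝ) - r

open Classical in
/-- Let `0 < γ ≤ θ`, `θ + γ < 1`, `c > 0` and `ε > 0`.  The proportion of the `n ≤ X` for which the
largest gap between consecutive integers without prime factor `≤ exp((log X)^θ)` in the window
`[n, n + exp(c (log X)^γ)]` is not between `(log X)^(θ+γ-ε)` and `(log X)^(θ+γ+ε)` tends to zero. -/
theorem result (θ γ c ε : ℝ) (hγ : 0 < γ) (hγθ : γ ≤ θ) (h1 : θ + γ < 1) (hc : 0 < c)
    (hε : 0 < ε) :
    Tendsto (fun X : ℕ => (((Icc 1 X).filter (fun n : ℕ =>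
      ¬ LargestGapIn (exp (log X ^ θ)) (exp (c * log X ^ γ)) (log X ^ (θ + γ - ε))
        (log X ^ (θ + γ + ε)) n)).card : ℝ) / X) atTop (𝓝 0) :=
  Pool.Agent.RG.exponent_law θ γ c hγ hγθ h1 hc ε hε

end Pool.Agent.Results.MP_7b323f_nt.RoughGapExponent
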